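import Pool.Agent.NPC.Dec

/-!
# No constant-factor single-criteria approximation for GlobalECC and RobustECC

A polynomial-time `α`-approximation for GlobalECC or for RobustECC gives a polynomial-time
`(3 α + 1)^2`-approximation for Densest `k`-Subgraph.
-/

namespace Pool.Agent.Results.MP_dc7e63_lc.NoConstantFactor

open Pool.Agent.NPC

/-! ### The two clustering problems -/

/-- An instance: the list of nodes, the list of colours, the list of hyperedges (each given by
its colour and the list of its nodes), and the budget. -/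
abbrev Inst := (List ℕ × List ℕ) × List (ℕ × List ℕ) × ℕ

/-- The nodes of an instance. -/
def nodes (I : Inst) : List ℕ := I.1.1

/-- The colours of an instance. -/
def colours (I : Inst) : List ℕ := I.1.2

/-- The hyperedges of an instance, as pairs (colour, nodes). -/
def edges (I : Inst) : List (ℕ × List ℕ) := I.2.1

/-- The budget of an instance. -/
def budget (I : Inst) : ℕ := I.2.2

/-- An instance is valid when nodes and colours are listed without repetition, there is some
colour, every hyperedge is a nonempty set of nodes with a colour from the list, and different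
hyperedges are different sets of nodes. -/
def Valid (I : Inst) : Prop :=
  (nodes I).Nodup ∧ (colours I).Nodup ∧ colours I ≠ [] ∧
    (∀ e ∈ edges I, e.1 ∈ colours I ∧ e.2 ≠ [] ∧ ∀ v ∈ e.2, v ∈ nodes I) ∧
    (edges I).Pairwise (fun e f => e.2.toFinset ≠ f.2.toFinset)

/-- `S` assigns to every node a nonempty set of colours. -/
def IsAssignment (I : Inst) (S : ℕ → Finset ℕ) : Prop :=
  ∀ v ∈ nodes I, (S v).Nonempty ∧ ∀ c ∈ S v, c ∈ colours I

/-- The number of extra colours, `∑ v, (|S v| - 1)`. -/
def extra (I : Inst) (S : ℕ → Finset ℕ) : ℕ := ∑ v ∈ (nodes I).toFinset, ((S v).card - 1)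

/-- Feasible solutions of GlobalECC. -/
def GlobalFeasible (I : Inst) (S : ℕ → Finset ℕ) : Prop :=
  IsAssignment I S ∧ extra I S ≤ budget I

/-- Feasible solutions of RobustECC: every node has exactly one colour, except that at most
`b` nodes have all the colours. -/
def RobustFeasible (I : Inst) (S : ℕ → Finset ℕ) : Prop :=
  IsAssignment I S ∧ ∃ D : Finset ℕ, D.card ≤ budget I ∧
    ∀ v ∈ nodes I, (v ∈ D → S v = (colours I).toFinset) ∧ (v ∉ D → (S v).card = 1)

/-- The number of mistakes: hyperedges some node of which is not assigned the colour of the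
hyperedge. -/
def mistakes (I : Inst) (S : ℕ → Finset ℕ) : ℕ :=
  (edges I).countP (fun e => ¬ ∀ v ∈ e.2, e.1 ∈ S v)

/-- The least number of mistakes of a feasible solution. -/
noncomputable def opt (Feas : Inst → (ℕ → Finset ℕ) → Prop) (I : Inst) : ℕ :=
  sInf {m | ∃ S, Feas I S ∧ mistakes I S = m}

/-- The assignment described by a list of pairs (node, colour). -/
def decode (o : List (ℕ × ℕ)) (v : ℕ) : Finset ℕ :=
  ((o.filter (fun p => p.1 = v)).map Prod.snd).toFinset

/-- The function `A` is computed in polynomial time (on binary encodings, by a Turing machine). -/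
def PolyTimeFun {α β : Type} [TEnc α] [TEnc β] (A : α → β) : Prop :=
  ∃ F : List Bool → List Bool, PolyTime F ∧ ∀ a, F (bits a) = bits (A a)

/-- The clustering problem with feasible solutions `Feas` has a polynomial-time single-criteria
`α`-approximation. -/
def HasApprox (Feas : Inst → (ℕ → Finset ℕ) → Prop) (α : ℝ) : Prop :=
  ∃ A : Inst → List (ℕ × ℕ), PolyTimeFun A ∧ ∀ I, Valid I →
    Feas I (decode (A I)) ∧ (mistakes I (decode (A I)) : ℝ) ≤ α * opt Feas I

/-! ### Densest k-Subgraph -/

/-- A graph with a number `k`: the vertices, the edges `(u, v)`, `u < v`, and `k`. -/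
abbrev DInst := List ℕ × List (ℕ × ℕ) × ℕ

/-- Valid graphs: no repetitions, and edges join vertices. -/
def DValid (J : DInst) : Prop :=
  J.1.Nodup ∧ J.2.1.Nodup ∧ ∀ e ∈ J.2.1, e.1 ∈ J.1 ∧ e.2 ∈ J.1 ∧ e.1 < e.2

/-- The number of edges spanned by a set of vertices. -/
def spanned (J : DInst) (T : Finset ℕ) : ℕ := J.2.1.countP (fun e => e.1 ∈ T ∧ e.2 ∈ T)

/-- Densest `k`-Subgraph has a polynomial-time `c`-approximation. -/
def DkSApprox (c : ℝ) : Prop :=
  ∃ A : DInst → List ℕ, PolyTimeFun A ∧ ∀ J, DValid J →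
    (A J).toFinset.card ≤ J.2.2 ∧ (∀ v ∈ A J, v ∈ J.1) ∧
    ∀ T : Finset ℕ, (∀ v ∈ T, v ∈ J.1) → T.card ≤ J.2.2 →
      (spanned J T : ℝ) ≤ c * spanned J (A J).toFinset

/-! ### General facts on lists -/

theorem countP_zipIdx {α : Type} (l : List α) (p : α → Bool) :
    l.countP p = l.zipIdx.countP (fun x => p x.1) := by
  conv_lhs => rw [← List.zipIdx_map_fst 0 l]
  rw [List.countP_map]
  rfl

theorem countP_zipIdx_snd {α : Type} (l : List α) (p : ℕ → Bool) :
    l.zipIdx.countP (fun x => p x.2) = ((Finset.range l.length).filter (fun i => p i = true)).card := by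
  have h : l.zipIdx.countP (fun x => p x.2) = (List.range l.length).countP p := by
    rw [List.range_eq_range', ← List.zipIdx_map_snd 0 l, List.countP_map]
    rfl
  rw [h, List.countP_eq_length_filter]
  have : ((Finset.range l.length).filter (fun i => p i = true)).card =
      ((List.range l.length).filter (fun i => decide (p i = true))).length := rfl
  rw [this]
  simp

theorem countP_range (n : ℕ) (p : ℕ → Bool) :
    (List.range n).countP p = ((Finset.range n).filter (fun i => p i = true)).card := by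
  rw [List.countP_eq_length_filter]
  have : ((Finset.range n).filter (fun i => p i = true)).card =
      ((List.range n).filter (fun i => decide (p i = true))).length := rfl
  rw [this]
  simp

theorem countP_mem_le {l : List ℕ} (hl : l.Nodup) (T : Finset ℕ) :
    l.countP (fun v => decide (v ∈ T)) ≤ T.card := by
  rw [List.countP_eq_length_filter, ← List.toFinset_card_of_nodup (hl.filter _)]
  refine Finset.card_le_card fun v hv => ?_
  rw [List.mem_toFinset, List.mem_filter] at hv
  simpa using hv.2

theorem mem_decode {o : List (ℕ × ℕ)} {v c : ℕ} : c ∈ decode o v ↔ (v, c) ∈ o := by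
  simp only [decode, List.mem_toFinset, List.mem_map, List.mem_filter, decide_eq_true_eq]
  constructor
  · rintro ⟨⟨a, b⟩, ⟨h, rfl⟩, rfl⟩
    exact h
  · intro h
    exact ⟨(v, c), ⟨h, rfl⟩, rfl⟩

/-! ### The reduction -/

/-- The number of private nodes of a graph edge. -/
def W (K : ℕ) (J : DInst) : ℕ := K * (J.1.length + 1)

/-- Incidence. -/
def inc (e : ℕ × ℕ) (u : ℕ) : Bool := decide (e.1 = u) || decide (e.2 = u)

/-- The hyperedge of the vertex `u` with index `a`. -/
def star (J : DInst) (ua : ℕ × ℕ) : ℕ × List ℕ :=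
  (1, (3 * ua.2 + 2) :: (J.2.1.zipIdx.filter (fun ei => inc ei.1 ua.1)).map (fun ei => 3 * ei.2))

/-- A heavy hyperedge. -/
def heavy (K : ℕ) (J : DInst) (t : ℕ) : ℕ × List ℕ := (0, [3 * (t / W K J), 3 * t + 1])

/-- The clustering instance: the nodes are the graph edges (`3 * i`), private nodes (`3 * t + 1`)
and one node (`3 * a + 2`) for each vertex. -/
def inst (K : ℕ) (J : DInst) (p : ℕ) : Inst :=
  (((List.range J.2.1.length).map (fun i => 3 * i) ++
      ((List.range (J.2.1.length * W K J)).map (fun t => 3 * t + 1) ++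
        (List.range J.1.length).map (fun a => 3 * a + 2)), [0, 1]),
    (List.range (J.2.1.length * W K J)).map (heavy K J) ++ J.1.zipIdx.map (star J),
    J.2.1.length - p)

theorem mem_nodes {K : ℕ} {J : DInst} {p v : ℕ} : v ∈ nodes (inst K J p) ↔
    (∃ i < J.2.1.length, 3 * i = v) ∨ (∃ t < J.2.1.length * W K J, 3 * t + 1 = v) ∨
      (∃ a < J.1.length, 3 * a + 2 = v) := by
  simp [nodes, inst]

theorem zipIdx_lt {α : Type} {l : List α} {x : α × ℕ} (h : x ∈ l.zipIdx) : x.2 < l.length := by
  obtain ⟨a, i⟩ := x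
  rw [List.mem_zipIdx_iff_getElem?] at h
  exact (List.getElem?_eq_some_iff.1 h).1

theorem zipIdx_mem {α : Type} {l : List α} {x : α × ℕ} (h : x ∈ l.zipIdx) : x.1 ∈ l := by
  obtain ⟨a, i⟩ := x
  rw [List.mem_zipIdx_iff_getElem?] at h
  exact List.mem_of_getElem? h

theorem zipIdx_inj {α : Type} {l : List α} {x y : α × ℕ} (hx : x ∈ l.zipIdx) (hy : y ∈ l.zipIdx)
    (h : x.2 = y.2) : x = y := by
  obtain ⟨a, i⟩ := x
  obtain ⟨b, j⟩ := y
  rw [List.mem_zipIdx_iff_getElem?] at hx hy
  simp only at h hx hy
  subst h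
  rw [hx] at hy
  simp at hy
  rw [hy]

theorem nodup_zipIdx {α : Type} (l : List α) : l.zipIdx.Nodup := by
  refine List.Nodup.of_map Prod.snd ?_
  rw [List.zipIdx_map_snd]
  exact List.nodup_range'

theorem exists_zipIdx {α : Type} {l : List α} {a : α} (h : a ∈ l) : ∃ i, (a, i) ∈ l.zipIdx := by
  obtain ⟨i, hi, rfl⟩ := List.getElem_of_mem h
  exact ⟨i, by rw [List.mem_zipIdx_iff_getElem?]; simp [hi]⟩

theorem valid_inst (K : ℕ) (J : DInst) (p : ℕ) : Valid (inst K J p) := by
  refine ⟨?_, ?_, ?_, ?_, ?_⟩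
  · unfold nodes inst
    simp only
    rw [List.nodup_append', List.nodup_append']
    refine ⟨?_, ⟨?_, ?_, ?_⟩, ?_⟩
    · exact (List.nodup_range).map (fun a b h => by simp at h; exact h)
    · exact (List.nodup_range).map (fun a b h => by simp at h; exact h)
    · exact (List.nodup_range).map (fun a b h => by simp at h; exact h)
    · intro a ha hb
      simp only [List.mem_map] at ha hb
      obtain ⟨x, _, hx⟩ := ha
      obtain ⟨y, _, hy⟩ := hb
      omega
    · intro a ha hb
      simp only [List.mem_map, List.mem_append] at ha hb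
      obtain ⟨x, _, hx⟩ := ha
      rcases hb with ⟨y, _, hy⟩ | ⟨y, _, hy⟩ <;> omega
  · simp [colours, inst]
  · simp [colours, inst]
  · intro e he
    unfold edges inst at he
    simp only [List.mem_append, List.mem_map, List.mem_range] at he
    rcases he with ⟨t, ht, rfl⟩ | ⟨ua, hua, rfl⟩
    · refine ⟨by simp [colours, inst, heavy], by simp [heavy], ?_⟩
      intro v hv
      simp only [heavy, List.mem_cons, List.not_mem_nil, or_false] at hv
      rw [mem_nodes]
      rcases hv with rfl | rfl
      · exact Or.inl ⟨_, (Nat.div_lt_iff_lt_mul (by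
          rcases Nat.eq_zero_or_pos (W K J) with h | h
          · rw [h] at ht; simp at ht
          · exact h)).2 ht, rfl⟩
      · exact Or.inr (Or.inl ⟨t, ht, rfl⟩)
    · refine ⟨by simp [colours, inst, star], by simp [star], ?_⟩
      intro v hv
      simp only [star, List.mem_cons, List.mem_map, List.mem_filter] at hv
      rw [mem_nodes]
      rcases hv with rfl | ⟨ei, ⟨hei, _⟩, rfl⟩
      · exact Or.inr (Or.inr ⟨ua.2, zipIdx_lt hua, rfl⟩)
      · exact Or.inl ⟨ei.2, zipIdx_lt hei, rfl⟩
  · unfold edges inst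
    simp only
    rw [List.pairwise_append]
    refine ⟨?_, ?_, ?_⟩
    · rw [List.pairwise_map]
      refine (List.nodup_range (n := J.2.1.length * W K J)).imp ?_
      intro a b hab h
      apply hab
      have : 3 * a + 1 ∈ (heavy K J b).2.toFinset := by rw [← h]; simp [heavy]
      simp only [heavy, List.mem_toFinset, List.mem_cons, List.not_mem_nil, or_false] at this
      omega
    · rw [List.pairwise_map]
      refine (nodup_zipIdx J.1).imp_of_mem ?_
      intro a b ha hb hab h
      apply hab
      have : 3 * a.2 + 2 ∈ (star J b).2.toFinset := by rw [← h]; simp [star]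
      simp only [star, List.mem_toFinset, List.mem_cons, List.mem_map] at this
      rcases this with h1 | ⟨ei, _, h1⟩
      · exact zipIdx_inj ha hb (by omega)
      · omega
    · intro e he f hf h
      simp only [List.mem_map] at he hf
      obtain ⟨t, _, rfl⟩ := he
      obtain ⟨ua, _, rfl⟩ := hf
      have : 3 * t + 1 ∈ (star J ua).2.toFinset := by rw [← h]; simp [heavy]
      simp only [star, List.mem_toFinset, List.mem_cons, List.mem_map] at this
      rcases this with h1 | ⟨ei, _, h1⟩ <;> omega

/-! ### Good solutions exist -/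

/-- The assignment that leaves the single colour `0` exactly to the graph edges of `Q`. -/
def sol (Q : Finset ℕ) (v : ℕ) : Finset ℕ :=
  if v % 3 = 0 then (if v / 3 ∈ Q then {0} else {0, 1}) else if v % 3 = 1 then {0} else {1}

theorem sol_assignment (K : ℕ) (J : DInst) (p : ℕ) (Q : Finset ℕ) :
    IsAssignment (inst K J p) (sol Q) := by
  intro v _
  unfold sol
  split_ifs <;> simp [colours, inst]

/-- The graph edges spanned by `T`, by index. -/
def inner (J : DInst) (T : Finset ℕ) : Finset ℕ :=
  ((J.2.1.zipIdx.filter (fun ei => decide (ei.1.1 ∈ T ∧ ei.1.2 ∈ T))).map Prod.snd).toFinset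

theorem mem_inner {J : DInst} {T : Finset ℕ} {i : ℕ} :
    i ∈ inner J T ↔ ∃ e, (e, i) ∈ J.2.1.zipIdx ∧ e.1 ∈ T ∧ e.2 ∈ T := by
  simp only [inner, List.mem_toFinset, List.mem_map, List.mem_filter, decide_eq_true_eq]
  constructor
  · rintro ⟨⟨e, j⟩, ⟨h1, h2⟩, rfl⟩
    exact ⟨e, h1, h2⟩
  · rintro ⟨e, h1, h2⟩
    exact ⟨(e, i), ⟨h1, h2⟩, rfl⟩

theorem card_inner (J : DInst) (T : Finset ℕ) : (inner J T).card = spanned J T := by
  unfold inner spanned
  rw [List.toFinset_card_of_nodup, List.length_map, countP_zipIdx, List.countP_eq_length_filter]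
  have : (J.2.1.zipIdx.map Prod.snd).Nodup := by
    rw [List.zipIdx_map_snd]
    exact List.nodup_range'
  exact this.sublist ((List.filter_sublist).map _)

theorem inner_subset (J : DInst) (T : Finset ℕ) : inner J T ⊆ Finset.range J.2.1.length := by
  intro i hi
  obtain ⟨e, he, _⟩ := mem_inner.1 hi
  rw [Finset.mem_range]
  exact zipIdx_lt he

theorem extra_sol (K : ℕ) (J : DInst) (p : ℕ) (Q : Finset ℕ) (hQ : Q ⊆ Finset.range J.2.1.length) :
    extra (inst K J p) (sol Q) ≤ J.2.1.length - Q.card := by
  classical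
  unfold extra
  have h1 : ∑ v ∈ (nodes (inst K J p)).toFinset, ((sol Q v).card - 1) ≤
      ∑ v ∈ (nodes (inst K J p)).toFinset,
        (if v ∈ (Finset.range J.2.1.length \ Q).image (fun i => 3 * i) then 1 else 0) := by
    refine Finset.sum_le_sum fun v hv => ?_
    rw [List.mem_toFinset, mem_nodes] at hv
    rcases hv with ⟨i, hi, rfl⟩ | ⟨t, _, rfl⟩ | ⟨a, _, rfl⟩
    · by_cases hiQ : i ∈ Q
      · have : sol Q (3 * i) = {0} := by
          unfold sol
          rw [if_pos (by omega), if_pos (by rwa [Nat.mul_div_cancel_left i (by omega)])]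
        rw [this]
        simp
      · have : sol Q (3 * i) = {0, 1} := by
          unfold sol
          rw [if_pos (by omega), if_neg (by rwa [Nat.mul_div_cancel_left i (by omega)])]
        rw [this, if_pos]
        · simp
        · rw [Finset.mem_image]
          exact ⟨i, by rw [Finset.mem_sdiff, Finset.mem_range]; exact ⟨hi, hiQ⟩, rfl⟩
    · have : sol Q (3 * t + 1) = {0} := by
        unfold sol
        rw [if_neg (by omega), if_pos (by omega)]
      rw [this]
      simp
    · have : sol Q (3 * a + 2) = {1} := by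
        unfold sol
        rw [if_neg (by omega), if_neg (by omega)]
      rw [this]
      simp
  refine h1.trans ?_
  rw [← Finset.card_filter]
  refine (Finset.card_le_card (fun v hv => (Finset.mem_filter.1 hv).2)).trans
    (Finset.card_image_le.trans ?_)
  rw [Finset.card_sdiff_of_subset hQ, Finset.card_range]

theorem sol_global (K : ℕ) (J : DInst) (T : Finset ℕ) :
    GlobalFeasible (inst K J (spanned J T)) (sol (inner J T)) := by
  refine ⟨sol_assignment _ _ _ _, ?_⟩
  refine (extra_sol K J _ _ (inner_subset J T)).trans ?_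
  rw [card_inner]
  exact le_rfl

theorem sol_robust (K : ℕ) (J : DInst) (T : Finset ℕ) :
    RobustFeasible (inst K J (spanned J T)) (sol (inner J T)) := by
  classical
  refine ⟨sol_assignment _ _ _ _,
    (Finset.range J.2.1.length \ inner J T).image (fun i => 3 * i), ?_, ?_⟩
  · refine Finset.card_image_le.trans ?_
    rw [Finset.card_sdiff_of_subset (inner_subset J T), Finset.card_range, card_inner]
    exact le_rfl
  · intro v hv
    have hcol : (colours (inst K J (spanned J T))).toFinset = {0, 1} := by simp [colours, inst]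
    rw [hcol]
    rw [mem_nodes] at hv
    rcases hv with ⟨i, hi, rfl⟩ | ⟨t, _, rfl⟩ | ⟨a, _, rfl⟩
    · by_cases hiQ : i ∈ inner J T
      · have h1 : sol (inner J T) (3 * i) = {0} := by
          unfold sol
          rw [if_pos (by omega), if_pos (by rwa [Nat.mul_div_cancel_left i (by omega)])]
        refine ⟨fun h => ?_, fun _ => by rw [h1]; simp⟩
        rw [Finset.mem_image] at h
        obtain ⟨j, hj, hji⟩ := h
        have : j = i := by omega
        subst this
        exact absurd hiQ (Finset.mem_sdiff.1 hj).2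
      · have h1 : sol (inner J T) (3 * i) = {0, 1} := by
          unfold sol
          rw [if_pos (by omega), if_neg (by rwa [Nat.mul_div_cancel_left i (by omega)])]
        refine ⟨fun _ => h1, fun h => absurd ?_ h⟩
        rw [Finset.mem_image]
        exact ⟨i, by rw [Finset.mem_sdiff, Finset.mem_range]; exact ⟨hi, hiQ⟩, rfl⟩
    · have h1 : sol (inner J T) (3 * t + 1) = {0} := by
        unfold sol
        rw [if_neg (by omega), if_pos (by omega)]
      refine ⟨fun h => ?_, fun _ => by rw [h1]; simp⟩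
      rw [Finset.mem_image] at h
      obtain ⟨j, _, hji⟩ := h
      omega
    · have h1 : sol (inner J T) (3 * a + 2) = {1} := by
        unfold sol
        rw [if_neg (by omega), if_neg (by omega)]
      refine ⟨fun h => ?_, fun _ => by rw [h1]; simp⟩
      rw [Finset.mem_image] at h
      obtain ⟨j, _, hji⟩ := h
      omega

theorem mistakes_inst (K : ℕ) (J : DInst) (p : ℕ) (S : ℕ → Finset ℕ) :
    mistakes (inst K J p) S =
      (List.range (J.2.1.length * W K J)).countP
        (fun t => decide (¬ ∀ v ∈ (heavy K J t).2, (heavy K J t).1 ∈ S v)) +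
      J.1.zipIdx.countP (fun ua => decide (¬ ∀ v ∈ (star J ua).2, (star J ua).1 ∈ S v)) := by
  unfold mistakes edges inst
  simp only
  rw [List.countP_append, List.countP_map, List.countP_map]
  rfl

theorem mistakes_sol {K : ℕ} {J : DInst} (hJ : DValid J) (p : ℕ) (T : Finset ℕ) :
    mistakes (inst K J p) (sol (inner J T)) ≤ T.card := by
  rw [mistakes_inst]
  have h1 : (List.range (J.2.1.length * W K J)).countP
      (fun t => decide (¬ ∀ v ∈ (heavy K J t).2, (heavy K J t).1 ∈ sol (inner J T) v)) = 0 := by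
    rw [List.countP_eq_zero]
    intro t _
    rw [decide_eq_true_eq, not_not]
    intro v hv
    simp only [heavy, List.mem_cons, List.not_mem_nil, or_false] at hv ⊢
    unfold sol
    rcases hv with rfl | rfl
    · rw [if_pos (by omega)]
      split_ifs <;> simp
    · rw [if_neg (by omega), if_pos (by omega)]
      simp
  rw [h1, zero_add]
  refine le_trans ?_ (countP_mem_le hJ.1 T)
  rw [countP_zipIdx J.1 (fun v => decide (v ∈ T))]
  refine List.countP_mono_left ?_
  rintro ⟨u, a⟩ hua h
  rw [decide_eq_true_eq] at h ⊢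
  by_contra huT
  apply h
  intro v hv
  simp only [star, List.mem_cons, List.mem_map, List.mem_filter] at hv ⊢
  unfold sol
  rcases hv with rfl | ⟨⟨e, i⟩, ⟨hei, hinc⟩, rfl⟩
  · rw [if_neg (by omega), if_neg (by omega)]
    simp
  · rw [if_pos (by omega), if_neg]
    · simp
    · rw [Nat.mul_div_cancel_left i (by omega)]
      intro hi
      obtain ⟨e', he', h1, h2⟩ := mem_inner.1 hi
      have := zipIdx_inj he' hei rfl
      simp only [Prod.mk.injEq] at this
      rw [this.1] at h1 h2
      simp only [inc, Bool.or_eq_true, decide_eq_true_eq] at hinc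
      rcases hinc with h3 | h3
      · rw [h3] at h1; exact huT h1
      · rw [h3] at h2; exact huT h2

/-- Both kinds of feasibility, abstractly: what the reduction needs. -/
structure Nice (Feas : Inst → (ℕ → Finset ℕ) → Prop) : Prop where
  sol : ∀ (K : ℕ) (J : DInst) (T : Finset ℕ),
    Feas (inst K J (spanned J T)) (sol (inner J T))
  both : ∀ (K : ℕ) (J : DInst) (p : ℕ) (S : ℕ → Finset ℕ), Feas (inst K J p) S →
    ((Finset.range J.2.1.length).filter (fun i => 0 ∈ S (3 * i) ∧ 1 ∈ S (3 * i))).card ≤
      J.2.1.length - p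

theorem nice_global : Nice GlobalFeasible := by
  classical
  refine ⟨fun K J T => sol_global K J T, fun K J p S h => ?_⟩
  refine le_trans ?_ h.2
  unfold extra
  rw [Finset.card_filter]
  have h1 : ∑ i ∈ Finset.range J.2.1.length, (if 0 ∈ S (3 * i) ∧ 1 ∈ S (3 * i) then 1 else 0) ≤
      ∑ i ∈ Finset.range J.2.1.length, ((S (3 * i)).card - 1) := by
    refine Finset.sum_le_sum fun i _ => ?_
    split_ifs with h
    · have : 1 < (S (3 * i)).card := Finset.one_lt_card.2 ⟨0, h.1, 1, h.2, by norm_num⟩
      omega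
    · exact Nat.zero_le _
  refine h1.trans ?_
  rw [← Finset.sum_image (s := Finset.range J.2.1.length) (g := fun i => 3 * i)
    (f := fun v => (S v).card - 1) (fun a _ b _ hab => by simp at hab; exact hab)]
  refine Finset.sum_le_sum_of_subset ?_
  intro v hv
  obtain ⟨i, hi, rfl⟩ := Finset.mem_image.1 hv
  rw [List.mem_toFinset, mem_nodes]
  exact Or.inl ⟨i, Finset.mem_range.1 hi, rfl⟩

theorem nice_robust : Nice RobustFeasible := by
  classical
  refine ⟨fun K J T => sol_robust K J T, fun K J p S h => ?_⟩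
  obtain ⟨_, D, hD, h2⟩ := h
  refine le_trans ?_ hD
  refine Finset.card_le_card_of_injOn (fun i => 3 * i) ?_ (fun a _ b _ hab => by
    simp at hab; exact hab)
  intro i hi
  simp only [Finset.coe_filter, Finset.mem_range, Set.mem_ofPred_eq] at hi
  by_contra hcon
  have h3 := (h2 (3 * i) (mem_nodes.2 (Or.inl ⟨i, hi.1, rfl⟩))).2 hcon
  have : 1 < (S (3 * i)).card := Finset.one_lt_card.2 ⟨0, hi.2.1, 1, hi.2.2, by norm_num⟩
  omega

/-! ### Extracting a dense set of vertices -/

/-- The graph edges that did not get the colour `1`. -/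
def cheap (J : DInst) (o : List (ℕ × ℕ)) : List ((ℕ × ℕ) × ℕ) :=
  J.2.1.zipIdx.filter (fun ei => !(decide ((3 * ei.2, 1) ∈ o)))

/-- The vertices covered by them. -/
def cov (J : DInst) (o : List (ℕ × ℕ)) : List ℕ :=
  J.1.filter (fun u => (cheap J o).any (fun ei => inc ei.1 u))

/-- The analysis of an approximate solution. -/
theorem cov_spec {Feas : Inst → (ℕ → Finset ℕ) → Prop} (hF : Nice Feas) {α : ℝ} {K : ℕ}
    (hK : α ≤ K) (hK1 : 1 ≤ K) (hα : 0 ≤ α) {J : DInst} (hJ : DValid J) {T : Finset ℕ}
    (hT : ∀ v ∈ T, v ∈ J.1) {o : List (ℕ × ℕ)}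
    (ho : Feas (inst K J (spanned J T)) (decode o))
    (hm : (mistakes (inst K J (spanned J T)) (decode o) : ℝ) ≤
      α * opt Feas (inst K J (spanned J T))) :
    ((cov J o).length : ℝ) ≤ α * T.card ∧ spanned J T ≤ spanned J (cov J o).toFinset := by
  classical
  have hpm : spanned J T ≤ J.2.1.length := List.countP_le_length
  have hoptT : opt Feas (inst K J (spanned J T)) ≤ T.card := by
    have h1 : opt Feas (inst K J (spanned J T)) ≤
        mistakes (inst K J (spanned J T)) (sol (inner J T)) := Nat.sInf_le ⟨_, hF.sol K J T, rfl⟩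
    exact h1.trans (mistakes_sol hJ _ T)
  have hmT : (mistakes (inst K J (spanned J T)) (decode o) : ℝ) ≤ α * T.card :=
    hm.trans (mul_le_mul_of_nonneg_left (by exact_mod_cast hoptT) hα)
  have hTn : T.card ≤ J.1.length := by
    have : T ⊆ J.1.toFinset := fun v hv => List.mem_toFinset.2 (hT v hv)
    exact (Finset.card_le_card this).trans (List.toFinset_card_le _)
  have hboth := hF.both K J (spanned J T) (decode o) ho
  generalize spanned J T = p at *
  -- heavy hyperedges are satisfied
  have hW : mistakes (inst K J p) (decode o) < W K J := by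
    have h2 : (mistakes (inst K J p) (decode o) : ℝ) ≤ K * J.1.length := by
      refine hmT.trans ?_
      exact mul_le_mul hK (by exact_mod_cast hTn) (Nat.cast_nonneg _) (Nat.cast_nonneg _)
    have h3 : mistakes (inst K J p) (decode o) ≤ K * J.1.length := by exact_mod_cast h2
    unfold W
    nlinarith
  rw [mistakes_inst] at hW hmT
  have hzero : ∀ i < J.2.1.length, 0 ∈ decode o (3 * i) := by
    intro i hi
    by_contra hcon
    have h1 : W K J ≤ (List.range (J.2.1.length * W K J)).countP
        (fun t => decide (¬ ∀ v ∈ (heavy K J t).2, (heavy K J t).1 ∈ decode o v)) := by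
      rw [countP_range]
      have h2 : Finset.Ico (i * W K J) (i * W K J + W K J) ⊆
          (Finset.range (J.2.1.length * W K J)).filter (fun t =>
            decide (¬ ∀ v ∈ (heavy K J t).2, (heavy K J t).1 ∈ decode o v) = true) := by
        intro t ht
        rw [Finset.mem_Ico] at ht
        rw [Finset.mem_filter, Finset.mem_range, decide_eq_true_eq]
        refine ⟨?_, fun h => hcon ?_⟩
        · have : (i + 1) * W K J ≤ J.2.1.length * W K J := Nat.mul_le_mul_right _ hi
          nlinarith
        · have hdiv : t / W K J = i := by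
            have hWpos : 0 < W K J := by omega
            rw [Nat.div_eq_iff hWpos]
            omega
          have := h (3 * (t / W K J)) (by simp [heavy])
          rw [hdiv] at this
          exact this
      have h3 := Finset.card_le_card h2
      rw [Nat.card_Ico, Nat.add_sub_cancel_left] at h3
      exact h3
    omega
  constructor
  · have h1 : (cov J o).length ≤
        J.1.zipIdx.countP (fun ua => decide (¬ ∀ v ∈ (star J ua).2, (star J ua).1 ∈ decode o v)) := by
      unfold cov
      rw [← List.countP_eq_length_filter,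
        countP_zipIdx J.1 (fun u => (cheap J o).any (fun ei => inc ei.1 u))]
      refine List.countP_mono_left ?_
      rintro ⟨u, a⟩ _ h
      rw [List.any_eq_true] at h
      obtain ⟨ei, hei, hinc⟩ := h
      unfold cheap at hei
      rw [List.mem_filter, Bool.not_eq_true', decide_eq_false_iff_not] at hei
      rw [decide_eq_true_eq]
      intro hall
      have h2 := hall (3 * ei.2) (by
        simp only [star, List.mem_cons, List.mem_map, List.mem_filter]
        exact Or.inr ⟨ei, ⟨hei.1, hinc⟩, rfl⟩)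
      exact hei.2 (mem_decode.1 h2)
    have h2 : ((cov J o).length : ℝ) ≤
        J.1.zipIdx.countP (fun ua => decide (¬ ∀ v ∈ (star J ua).2, (star J ua).1 ∈ decode o v)) := by
      exact_mod_cast h1
    refine h2.trans (le_trans ?_ hmT)
    push_cast
    linarith [Nat.cast_nonneg (α := ℝ) ((List.range (J.2.1.length * W K J)).countP
        (fun t => decide (¬ ∀ v ∈ (heavy K J t).2, (heavy K J t).1 ∈ decode o v)))]
  · have h1 : ((Finset.range J.2.1.length).filter (fun i => 1 ∈ decode o (3 * i))).card ≤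
        J.2.1.length - p := by
      refine le_trans (Finset.card_le_card ?_) hboth
      intro i hi
      rw [Finset.mem_filter] at hi ⊢
      exact ⟨hi.1, hzero i (Finset.mem_range.1 hi.1), hi.2⟩
    have h2 : p ≤ J.2.1.zipIdx.countP (fun ei => !(decide ((3 * ei.2, 1) ∈ o))) := by
      rw [countP_zipIdx_snd J.2.1 (fun i => !(decide ((3 * i, 1) ∈ o)))]
      have h3 := Finset.card_filter_add_card_filter_not (s := Finset.range J.2.1.length)
        (fun i => 1 ∈ decode o (3 * i))
      rw [Finset.card_range] at h3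
      have h4 : (Finset.range J.2.1.length).filter (fun i => ¬ (1 ∈ decode o (3 * i))) =
          (Finset.range J.2.1.length).filter (fun i => (!(decide ((3 * i, 1) ∈ o))) = true) := by
        refine Finset.filter_congr fun i _ => ?_
        rw [mem_decode]
        simp
      rw [← h4]
      omega
    refine h2.trans ?_
    unfold spanned
    rw [countP_zipIdx J.2.1 (fun e => decide (e.1 ∈ (cov J o).toFinset ∧ e.2 ∈ (cov J o).toFinset))]
    refine List.countP_mono_left ?_
    intro ei hei h
    have hc : ei ∈ cheap J o := List.mem_filter.2 ⟨hei, h⟩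
    rw [decide_eq_true_eq, List.mem_toFinset, List.mem_toFinset]
    have hv := hJ.2.2 _ (zipIdx_mem hei)
    unfold cov
    rw [List.mem_filter, List.mem_filter, List.any_eq_true, List.any_eq_true]
    exact ⟨⟨hv.1, ei, hc, by simp [inc]⟩, ⟨hv.2.1, ei, hc, by simp [inc]⟩⟩

/-! ### Cutting a set of vertices into blocks -/

/-- A block of a list of vertices. -/
def blk (U : List ℕ) (h a : ℕ) : List ℕ :=
  (U.zipIdx.filter (fun x => decide (x.2 / h = a))).map Prod.fst

theorem blk_length (U : List ℕ) {h : ℕ} (hh : 0 < h) (a : ℕ) : (blk U h a).length ≤ h := by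
  unfold blk
  rw [List.length_map, ← List.countP_eq_length_filter,
    countP_zipIdx_snd U (fun i => decide (i / h = a))]
  have : (Finset.range U.length).filter (fun i => decide (i / h = a) = true) ⊆
      Finset.Ico (a * h) (a * h + h) := by
    intro i hi
    rw [Finset.mem_filter, decide_eq_true_eq] at hi
    rw [Finset.mem_Ico]
    have := hi.2
    rw [Nat.div_eq_iff hh] at this
    omega
  have h2 := Finset.card_le_card this
  rwa [Nat.card_Ico, Nat.add_sub_cancel_left] at h2

theorem blk_subset {U : List ℕ} {h a u : ℕ} (hu : u ∈ blk U h a) : u ∈ U := by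
  unfold blk at hu
  rw [List.mem_map] at hu
  obtain ⟨x, hx, rfl⟩ := hu
  exact zipIdx_mem (List.mem_filter.1 hx).1

theorem exists_blk {U : List ℕ} {h u : ℕ} (hu : u ∈ U) :
    ∃ a < U.length / h + 1, u ∈ blk U h a := by
  obtain ⟨i, hi⟩ := exists_zipIdx hu
  refine ⟨i / h, ?_, ?_⟩
  · have h1 : i < U.length := zipIdx_lt hi
    exact Nat.lt_succ_of_le (Nat.div_le_div_right h1.le)
  · unfold blk
    rw [List.mem_map]
    exact ⟨(u, i), List.mem_filter.2 ⟨hi, by simp⟩, rfl⟩

theorem spanned_blocks (J : DInst) (U : List ℕ) (h M : ℕ)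
    (hM : ∀ a < U.length / h + 1, ∀ b < U.length / h + 1,
      spanned J (blk U h a ++ blk U h b).toFinset ≤ M) :
    spanned J U.toFinset ≤ (U.length / h + 1) * (U.length / h + 1) * M := by
  classical
  rw [← card_inner]
  have h1 : inner J U.toFinset ⊆
      (Finset.range (U.length / h + 1) ×ˢ Finset.range (U.length / h + 1)).biUnion
        (fun ab => inner J (blk U h ab.1 ++ blk U h ab.2).toFinset) := by
    intro i hi
    obtain ⟨e, he, h1, h2⟩ := mem_inner.1 hi
    obtain ⟨a, ha, hea⟩ := exists_blk (h := h) (List.mem_toFinset.1 h1)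
    obtain ⟨b, hb, heb⟩ := exists_blk (h := h) (List.mem_toFinset.1 h2)
    rw [Finset.mem_biUnion]
    refine ⟨(a, b), Finset.mem_product.2 ⟨Finset.mem_range.2 ha, Finset.mem_range.2 hb⟩, ?_⟩
    rw [mem_inner]
    refine ⟨e, he, ?_, ?_⟩
    · rw [List.mem_toFinset, List.mem_append]; exact Or.inl hea
    · rw [List.mem_toFinset, List.mem_append]; exact Or.inr heb
  refine (Finset.card_le_card h1).trans (Finset.card_biUnion_le.trans ?_)
  refine (Finset.sum_le_card_nsmul _ _ M ?_).trans ?_
  · intro ab hab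
    rw [Finset.mem_product, Finset.mem_range, Finset.mem_range] at hab
    rw [card_inner]
    exact hM _ hab.1 _ hab.2
  · rw [Finset.card_product, Finset.card_range, smul_eq_mul]

/-! ### The algorithm for Densest `k`-Subgraph -/

/-- The number of edges spanned by a list of vertices. -/
def spannedC (J : DInst) (X : List ℕ) : ℕ :=
  (J.2.1.filter (fun e => decide (e.1 ∈ X) && decide (e.2 ∈ X))).length

theorem spannedC_eq (J : DInst) (X : List ℕ) : spannedC J X = spanned J X.toFinset := by
  unfold spannedC spanned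
  rw [← List.countP_eq_length_filter]
  refine List.countP_congr fun e _ => ?_
  simp

/-- The candidate sets. -/
def cands (A : Inst → List (ℕ × ℕ)) (K : ℕ) (J : DInst) : List (List ℕ) :=
  ((List.range (J.2.1.length + 1)).map fun p => cov J (A (inst K J p))).flatMap fun U =>
    (List.range (J.1.length + 1)).flatMap fun a =>
      (List.range (J.1.length + 1)).map fun b => blk U (J.2.2 / 2) a ++ blk U (J.2.2 / 2) b

/-- The algorithm. -/
def dks (A : Inst → List (ℕ × ℕ)) (K : ℕ) (J : DInst) : List ℕ :=
  if J.2.2 ≤ 1 then [] else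
    ((cands A K J).filter (fun X => (cands A K J).all fun Y =>
      decide (spannedC J Y ≤ spannedC J X))).head?.getD []

theorem exists_max_list {α : Type} (f : α → ℕ) : ∀ l : List α, l ≠ [] → ∃ a ∈ l, ∀ b ∈ l, f b ≤ f a
  | [], h => absurd rfl h
  | [a], _ => ⟨a, by simp, by simp⟩
  | a :: b :: l, _ => by
    obtain ⟨c, hc, hm⟩ := exists_max_list f (b :: l) (by simp)
    by_cases h : f c ≤ f a
    · refine ⟨a, by simp, fun d hd => ?_⟩
      rcases List.mem_cons.1 hd with rfl | hd
      · exact le_rfl
      · exact (hm d hd).trans h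
    · refine ⟨c, List.mem_cons_of_mem _ hc, fun d hd => ?_⟩
      rcases List.mem_cons.1 hd with rfl | hd
      · omega
      · exact hm d hd

theorem mem_cands {A : Inst → List (ℕ × ℕ)} {K : ℕ} {J : DInst} {X : List ℕ} :
    X ∈ cands A K J ↔ ∃ p ≤ J.2.1.length, ∃ a ≤ J.1.length, ∃ b ≤ J.1.length,
      X = blk (cov J (A (inst K J p))) (J.2.2 / 2) a ++
        blk (cov J (A (inst K J p))) (J.2.2 / 2) b := by
  unfold cands
  simp only [List.mem_flatMap, List.mem_map, List.mem_range, Nat.lt_succ_iff]
  constructor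
  · rintro ⟨U, ⟨p, hp, rfl⟩, a, ha, b, hb, rfl⟩
    exact ⟨p, hp, a, ha, b, hb, rfl⟩
  · rintro ⟨p, hp, a, ha, b, hb, rfl⟩
    exact ⟨_, ⟨p, hp, rfl⟩, a, ha, b, hb, rfl⟩

theorem dks_spec (A : Inst → List (ℕ × ℕ)) (K : ℕ) (J : DInst) (hk : 2 ≤ J.2.2) :
    dks A K J ∈ cands A K J ∧ ∀ X ∈ cands A K J, spannedC J X ≤ spannedC J (dks A K J) := by
  have hne : cands A K J ≠ [] :=
    List.ne_nil_of_mem (mem_cands.2 ⟨0, Nat.zero_le _, 0, Nat.zero_le _, 0, Nat.zero_le _, rfl⟩)
  obtain ⟨a, ha, hm⟩ := exists_max_list (spannedC J) _ hne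
  have hmem : a ∈ (cands A K J).filter (fun X => (cands A K J).all fun Y =>
      decide (spannedC J Y ≤ spannedC J X)) := by
    rw [List.mem_filter, List.all_eq_true]
    exact ⟨ha, fun b hb => by simpa using hm b hb⟩
  have h2 : dks A K J ∈ (cands A K J).filter (fun X => (cands A K J).all fun Y =>
      decide (spannedC J Y ≤ spannedC J X)) := by
    unfold dks
    rw [if_neg (by omega)]
    cases hl : (cands A K J).filter (fun X => (cands A K J).all fun Y =>
      decide (spannedC J Y ≤ spannedC J X)) with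
    | nil => rw [hl] at hmem; simp at hmem
    | cons x l => simp
  rw [List.mem_filter, List.all_eq_true] at h2
  exact ⟨h2.1, fun o ho => by simpa using h2.2 o ho⟩

theorem dks_correct {Feas : Inst → (ℕ → Finset ℕ) → Prop} (hF : Nice Feas) {α : ℝ} {K : ℕ}
    (hK : α ≤ K) (hK1 : 1 ≤ K) (hα : 0 ≤ α) {A : Inst → List (ℕ × ℕ)}
    (hA : ∀ I, Valid I →
      Feas I (decode (A I)) ∧ (mistakes I (decode (A I)) : ℝ) ≤ α * opt Feas I)
    {J : DInst} (hJ : DValid J) :
    (dks A K J).toFinset.card ≤ J.2.2 ∧ (∀ v ∈ dks A K J, v ∈ J.1) ∧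
    ∀ T : Finset ℕ, (∀ v ∈ T, v ∈ J.1) → T.card ≤ J.2.2 →
      (spanned J T : ℝ) ≤ (3 * α + 1) ^ 2 * spanned J (dks A K J).toFinset := by
  have hzero : ∀ T : Finset ℕ, T.card ≤ 1 → spanned J T = 0 := by
    intro T hT
    unfold spanned
    rw [List.countP_eq_zero]
    intro e he h
    rw [decide_eq_true_eq] at h
    have := hJ.2.2 e he
    have h2 := Finset.card_le_one.1 hT _ h.1 _ h.2
    omega
  by_cases hk : J.2.2 ≤ 1
  · have h0 : dks A K J = [] := by
      unfold dks
      rw [if_pos hk]
    rw [h0]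
    refine ⟨by simp, by simp, fun T _ hT => ?_⟩
    rw [hzero T (hT.trans hk), Nat.cast_zero]
    positivity
  · push Not at hk
    have hh : 0 < J.2.2 / 2 := by omega
    obtain ⟨h1, h2⟩ := dks_spec A K J hk
    obtain ⟨p, _, a, _, b, _, heq⟩ := mem_cands.1 h1
    refine ⟨?_, ?_, ?_⟩
    · refine (List.toFinset_card_le _).trans ?_
      rw [heq, List.length_append]
      have h3 := blk_length (cov J (A (inst K J p))) hh a
      have h4 := blk_length (cov J (A (inst K J p))) hh b
      omega
    · intro v hv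
      rw [heq, List.mem_append] at hv
      have : v ∈ cov J (A (inst K J p)) := by
        rcases hv with hv | hv <;> exact blk_subset hv
      unfold cov at this
      exact (List.mem_filter.1 this).1
    · intro T hT hTk
      obtain ⟨h3, h4⟩ := hA _ (valid_inst K J (spanned J T))
      obtain ⟨h5, h6⟩ := cov_spec hF hK hK1 hα hJ hT h3 h4
      set U := cov J (A (inst K J (spanned J T))) with hU
      have hUn : U.length ≤ J.1.length := by
        rw [hU]; unfold cov; exact List.length_filter_le _ _
      have h7 : U.length / (J.2.2 / 2) ≤ U.length := Nat.div_le_self _ _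
      have h8 := spanned_blocks J U (J.2.2 / 2) (spannedC J (dks A K J)) (by
        intro a ha b hb
        rw [← spannedC_eq]
        refine h2 _ (mem_cands.2 ⟨spanned J T, List.countP_le_length, a, by omega, b, by omega, rfl⟩))
      rw [spannedC_eq] at h8
      have h9 : ((U.length / (J.2.2 / 2) + 1 : ℕ) : ℝ) ≤ 3 * α + 1 := by
        push_cast
        have e1 : ((U.length / (J.2.2 / 2) : ℕ) : ℝ) ≤ (U.length : ℝ) / ((J.2.2 / 2 : ℕ) : ℝ) :=
          Nat.cast_div_le
        have e2 : (U.length : ℝ) / ((J.2.2 / 2 : ℕ) : ℝ) ≤ 3 * α := by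
          rw [div_le_iff₀ (by exact_mod_cast hh)]
          have e3 : (J.2.2 : ℝ) ≤ 3 * ((J.2.2 / 2 : ℕ) : ℝ) := by
            have : J.2.2 ≤ 3 * (J.2.2 / 2) := by omega
            exact_mod_cast this
          have e4 : (T.card : ℝ) ≤ J.2.2 := by exact_mod_cast hTk
          nlinarith
        linarith
      have h10 : (spanned J T : ℝ) ≤ ((U.length / (J.2.2 / 2) + 1 : ℕ) : ℝ) *
          ((U.length / (J.2.2 / 2) + 1 : ℕ) : ℝ) * spanned J (dks A K J).toFinset := by
        exact_mod_cast h6.trans h8
      refine h10.trans ?_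
      rw [sq]
      refine mul_le_mul_of_nonneg_right ?_ (Nat.cast_nonneg _)
      exact mul_le_mul h9 h9 (Nat.cast_nonneg _) (by linarith)

/-! ### Polynomial time -/

section PolyTime

variable {β : Type} [TEnc β]

theorem poly_inc {e : β → ℕ × ℕ} {u : β → ℕ} (he : Poly e) (hu : Poly u) :
    Poly (fun a => inc (e a) (u a)) :=
  Poly.or (Poly.decide_eq (Poly.fst he) hu) (Poly.decide_eq (Poly.snd he) hu)

theorem upoly_n {f : β → DInst} (hf : Poly f) : UPoly (fun a => (f a).1.length) :=
  UPoly.length (Poly.fst hf)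

theorem upoly_m {f : β → DInst} (hf : Poly f) : UPoly (fun a => (f a).2.1.length) :=
  UPoly.length (Poly.fst (Poly.snd hf))

theorem upoly_W (K : ℕ) {f : β → DInst} (hf : Poly f) : UPoly (fun a => W K (f a)) :=
  UPoly.mul (UPoly.const K) (UPoly.add (upoly_n hf) (UPoly.const 1))

theorem poly_heavy (K : ℕ) {f : β → DInst} {t : β → ℕ} (hf : Poly f) (ht : Poly t) :
    Poly (fun a => heavy K (f a) (t a)) :=
  Poly.pair (NPC.Poly.const 0) (Poly.cons
    (Poly.mul (NPC.Poly.const 3) (Poly.div ht (upoly_W K hf).toPoly))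
    (Poly.cons (Poly.succ (Poly.mul (NPC.Poly.const 3) ht)) (NPC.Poly.const [])))

theorem poly_star {f : β → DInst} {ua : β → ℕ × ℕ} (hf : Poly f) (hua : Poly ua) :
    Poly (fun a => star (f a) (ua a)) := by
  have h1 : Poly (fun x : β × ((ℕ × ℕ) × ℕ) => inc x.2.1 (ua x.1).1) :=
    poly_inc (Poly.fst (Poly.snd Poly.id)) (Poly.fst (hua.comp (Poly.fst Poly.id)))
  have h2 : Poly (fun a => (f a).2.1.zipIdx) := Poly.zipIdx (Poly.fst (Poly.snd hf))
  have h3 : Poly (fun a => (f a).2.1.zipIdx.filter (fun ei => inc ei.1 (ua a).1)) :=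
    Poly.filter (l := fun a => (f a).2.1.zipIdx) (p := fun a ei => inc ei.1 (ua a).1) h2 h1
  have h4 : Poly (fun a => ((f a).2.1.zipIdx.filter (fun ei => inc ei.1 (ua a).1)).map
      (fun ei => 3 * ei.2)) :=
    NPC.Poly.map (l := fun a => (f a).2.1.zipIdx.filter (fun ei => inc ei.1 (ua a).1))
      (F := fun _ ei => 3 * ei.2) h3 (Poly.mul (NPC.Poly.const 3) (Poly.snd (Poly.snd Poly.id)))
  exact Poly.pair (NPC.Poly.const 1) (Poly.cons
    (Poly.add (Poly.mul (NPC.Poly.const 3) (Poly.snd hua)) (NPC.Poly.const 2)) h4)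

theorem poly_inst (K : ℕ) {f : β → DInst} {p : β → ℕ} (hf : Poly f) (hp : Poly p) :
    Poly (fun a => inst K (f a) (p a)) := by
  have hm : Poly (fun a => List.range (f a).2.1.length) := (upoly_m hf).range
  have hn : Poly (fun a => List.range (f a).1.length) := (upoly_n hf).range
  have hmW : Poly (fun a => List.range ((f a).2.1.length * W K (f a))) :=
    (UPoly.mul (upoly_m hf) (upoly_W K hf)).range
  have h1 : Poly (fun a => (List.range (f a).2.1.length).map (fun i => 3 * i)) :=
    NPC.Poly.map (F := fun _ i => 3 * i) hm (Poly.mul (NPC.Poly.const 3) (Poly.snd Poly.id))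
  have h2 : Poly (fun a => (List.range ((f a).2.1.length * W K (f a))).map (fun i => 3 * i + 1)) :=
    NPC.Poly.map (F := fun _ i => 3 * i + 1) hmW
      (Poly.succ (Poly.mul (NPC.Poly.const 3) (Poly.snd Poly.id)))
  have h3 : Poly (fun a => (List.range (f a).1.length).map (fun i => 3 * i + 2)) :=
    NPC.Poly.map (F := fun _ i => 3 * i + 2) hn
      (Poly.add (Poly.mul (NPC.Poly.const 3) (Poly.snd Poly.id)) (NPC.Poly.const 2))
  have h4 : Poly (fun a => (List.range ((f a).2.1.length * W K (f a))).map (heavy K (f a))) :=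
    NPC.Poly.map (F := fun a t => heavy K (f a) t) hmW
      (poly_heavy K (hf.comp (Poly.fst Poly.id)) (Poly.snd Poly.id))
  have h5 : Poly (fun a => (f a).1.zipIdx.map (star (f a))) :=
    NPC.Poly.map (F := fun a ua => star (f a) ua) (Poly.zipIdx (Poly.fst hf))
      (poly_star (hf.comp (Poly.fst Poly.id)) (Poly.snd Poly.id))
  exact Poly.pair (Poly.pair (Poly.append h1 (Poly.append h2 h3)) (NPC.Poly.const [0, 1]))
    (Poly.pair (Poly.append h4 h5) (Poly.sub (upoly_m hf).toPoly hp))

theorem poly_cheap {f : β → DInst} {o : β → List (ℕ × ℕ)} (hf : Poly f) (ho : Poly o) :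
    Poly (fun a => cheap (f a) (o a)) := by
  have h1 : Poly (fun x : β × ((ℕ × ℕ) × ℕ) => !(decide ((3 * x.2.2, 1) ∈ o x.1))) :=
    Poly.not ((Poly.decide_mem (f := fun x : β × ((ℕ × ℕ) × ℕ) => (3 * x.2.2, 1))
      (l := fun x => o x.1)
      (Poly.pair (Poly.mul (NPC.Poly.const 3) (Poly.snd (Poly.snd Poly.id))) (NPC.Poly.const 1))
      (ho.comp (Poly.fst Poly.id))).congr fun x => decide_eq_decide.2 Iff.rfl)
  exact Poly.filter (l := fun a => (f a).2.1.zipIdx)
    (p := fun a ei => !(decide ((3 * ei.2, 1) ∈ o a))) (Poly.zipIdx (Poly.fst (Poly.snd hf))) h1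

theorem poly_cov {f : β → DInst} {o : β → List (ℕ × ℕ)} (hf : Poly f) (ho : Poly o) :
    Poly (fun a => cov (f a) (o a)) := by
  have h1 : Poly (fun x : β × ℕ => (cheap (f x.1) (o x.1)).any (fun ei => inc ei.1 x.2)) :=
    Poly.any (l := fun x : β × ℕ => cheap (f x.1) (o x.1)) (p := fun x ei => inc ei.1 x.2)
      (poly_cheap (hf.comp (Poly.fst Poly.id)) (ho.comp (Poly.fst Poly.id)))
      (poly_inc (Poly.fst (Poly.snd Poly.id)) (Poly.snd (Poly.fst Poly.id)))
  exact Poly.filter (l := fun a => (f a).1)
    (p := fun a u => (cheap (f a) (o a)).any (fun ei => inc ei.1 u)) (Poly.fst hf) h1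

theorem poly_blk {U : β → List ℕ} {h a : β → ℕ} (hU : Poly U) (hh : Poly h) (ha : Poly a) :
    Poly (fun x => blk (U x) (h x) (a x)) := by
  have h1 : Poly (fun x : β × (ℕ × ℕ) => decide (x.2.2 / h x.1 = a x.1)) :=
    Poly.decide_eq (Poly.div (Poly.snd (Poly.snd Poly.id)) (hh.comp (Poly.fst Poly.id)))
      (ha.comp (Poly.fst Poly.id))
  have h2 : Poly (fun x => (U x).zipIdx.filter (fun y => decide (y.2 / h x = a x))) :=
    Poly.filter (l := fun x => (U x).zipIdx) (p := fun x y => decide (y.2 / h x = a x))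
      (Poly.zipIdx hU) h1
  exact NPC.Poly.map (F := fun _ (y : ℕ × ℕ) => y.1) h2 (Poly.fst (Poly.snd Poly.id))

theorem poly_spannedC {f : β → DInst} {X : β → List ℕ} (hf : Poly f) (hX : Poly X) :
    Poly (fun a => spannedC (f a) (X a)) := by
  have h1 : Poly (fun x : β × (ℕ × ℕ) => decide (x.2.1 ∈ X x.1) && decide (x.2.2 ∈ X x.1)) :=
    Poly.and
      ((Poly.decide_mem (f := fun x : β × (ℕ × ℕ) => x.2.1) (l := fun x => X x.1)
        (Poly.fst (Poly.snd Poly.id)) (hX.comp (Poly.fst Poly.id))).congr
          fun x => decide_eq_decide.2 Iff.rfl)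
      ((Poly.decide_mem (f := fun x : β × (ℕ × ℕ) => x.2.2) (l := fun x => X x.1)
        (Poly.snd (Poly.snd Poly.id)) (hX.comp (Poly.fst Poly.id))).congr
          fun x => decide_eq_decide.2 Iff.rfl)
  exact Poly.length (Poly.filter (l := fun a => (f a).2.1)
    (p := fun a e => decide (e.1 ∈ X a) && decide (e.2 ∈ X a)) (Poly.fst (Poly.snd hf)) h1)

theorem poly_cands {A : Inst → List (ℕ × ℕ)} (hA : Poly A) (K : ℕ) {f : β → DInst}
    (hf : Poly f) : Poly (fun a => cands A K (f a)) := by
  have h1 : Poly (fun a => (List.range ((f a).2.1.length + 1)).map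
      fun p => cov (f a) (A (inst K (f a) p))) :=
    NPC.Poly.map (F := fun a p => cov (f a) (A (inst K (f a) p)))
      (UPoly.add (upoly_m hf) (UPoly.const 1)).range
      (poly_cov (hf.comp (Poly.fst Poly.id))
        (hA.comp (poly_inst K (hf.comp (Poly.fst Poly.id)) (Poly.snd Poly.id))))
  have hn : Poly (fun x : β × List ℕ => List.range ((f x.1).1.length + 1)) :=
    (UPoly.add (upoly_n (hf.comp (Poly.fst Poly.id))) (UPoly.const 1)).range
  have hn2 : Poly (fun x : (β × List ℕ) × ℕ => List.range ((f x.1.1).1.length + 1)) :=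
    (UPoly.add (upoly_n (hf.comp (Poly.fst (Poly.fst Poly.id)))) (UPoly.const 1)).range
  have h2 : Poly (fun x : (((β × List ℕ) × ℕ) × ℕ) =>
      blk x.1.1.2 ((f x.1.1.1).2.2 / 2) x.1.2 ++ blk x.1.1.2 ((f x.1.1.1).2.2 / 2) x.2) := by
    have e1 : Poly (fun x : (((β × List ℕ) × ℕ) × ℕ) => (f x.1.1.1).2.2 / 2) :=
      Poly.div (Poly.snd (Poly.snd (hf.comp (Poly.fst (Poly.fst (Poly.fst Poly.id))))))
        (NPC.Poly.const 2)
    have e2 : Poly (fun x : (((β × List ℕ) × ℕ) × ℕ) => x.1.1.2) :=
      Poly.snd (Poly.fst (Poly.fst Poly.id))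
    exact Poly.append (poly_blk e2 e1 (Poly.snd (Poly.fst Poly.id)))
      (poly_blk e2 e1 (Poly.snd Poly.id))
  have h3 : Poly (fun x : (β × List ℕ) × ℕ => (List.range ((f x.1.1).1.length + 1)).map
      fun b => blk x.1.2 ((f x.1.1).2.2 / 2) x.2 ++ blk x.1.2 ((f x.1.1).2.2 / 2) b) :=
    NPC.Poly.map (F := fun (x : (β × List ℕ) × ℕ) b =>
      blk x.1.2 ((f x.1.1).2.2 / 2) x.2 ++ blk x.1.2 ((f x.1.1).2.2 / 2) b) hn2 h2
  have h4 : Poly (fun x : β × List ℕ => (List.range ((f x.1).1.length + 1)).flatMap
      fun a => (List.range ((f x.1).1.length + 1)).map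
        fun b => blk x.2 ((f x.1).2.2 / 2) a ++ blk x.2 ((f x.1).2.2 / 2) b) :=
    Poly.flatMap (F := fun (x : β × List ℕ) a => (List.range ((f x.1).1.length + 1)).map
        fun b => blk x.2 ((f x.1).2.2 / 2) a ++ blk x.2 ((f x.1).2.2 / 2) b) hn h3
  exact Poly.flatMap (F := fun a U => (List.range ((f a).1.length + 1)).flatMap
      fun i => (List.range ((f a).1.length + 1)).map
        fun b => blk U ((f a).2.2 / 2) i ++ blk U ((f a).2.2 / 2) b) h1 h4

theorem poly_dks {A : Inst → List (ℕ × ℕ)} (hA : Poly A) (K : ℕ) : Poly (dks A K) := by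
  have h1 : Poly (fun x : (DInst × List ℕ) × List ℕ =>
      decide (spannedC x.1.1 x.2 ≤ spannedC x.1.1 x.1.2)) :=
    Poly.decide_le (poly_spannedC (Poly.fst (Poly.fst Poly.id)) (Poly.snd Poly.id))
      (poly_spannedC (Poly.fst (Poly.fst Poly.id)) (Poly.snd (Poly.fst Poly.id)))
  have h2 : Poly (fun x : DInst × List ℕ => (cands A K x.1).all fun Y =>
      decide (spannedC x.1 Y ≤ spannedC x.1 x.2)) :=
    Poly.all (l := fun x : DInst × List ℕ => cands A K x.1)
      (p := fun x Y => decide (spannedC x.1 Y ≤ spannedC x.1 x.2))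
      (poly_cands hA K (Poly.fst Poly.id)) h1
  have h3 : Poly (fun J : DInst => (cands A K J).filter (fun X => (cands A K J).all fun Y =>
      decide (spannedC J Y ≤ spannedC J X))) :=
    Poly.filter (l := fun J => cands A K J) (p := fun J X => (cands A K J).all fun Y =>
      decide (spannedC J Y ≤ spannedC J X)) (poly_cands hA K Poly.id) h2
  exact Poly.ite (Poly.decide_le (Poly.snd (Poly.snd Poly.id)) (NPC.Poly.const 1))
    (NPC.Poly.const []) (Poly.head?_getD h3 [])

/-- A polynomial-time function is computed by a program. -/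
theorem poly_of_polyTimeFun {α γ : Type} [TEnc α] [TEnc γ] {A : α → γ} (h : PolyTimeFun A) :
    Poly A := by
  obtain ⟨F, hF, hFA⟩ := h
  obtain ⟨c, p, hc⟩ := H642R2.TMSim.polyTime_toPC hF
  refine ⟨c, p, fun a => ?_⟩
  have := hc (bits a)
  rw [hFA a] at this
  exact this

theorem polyTimeFun_of_poly {α γ : Type} [TEnc α] [TDec α] [TEnc γ] {A : α → γ} (h : Poly A) :
    PolyTimeFun A := by
  have h1 : Poly (fun x : List Bool => (unbits α x).map A) :=
    Poly.optMap (f := fun _ I => A I) poly_unbits (h.comp (Poly.snd Poly.id))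
  refine ⟨_, polyTime_opt h1, fun I => ?_⟩
  rw [unbits_bits]
  rfl

end PolyTime

theorem approx_of_nice {Feas : Inst → (ℕ → Finset ℕ) → Prop} (hF : Nice Feas) {α : ℝ}
    (hα : 1 ≤ α) (h : HasApprox Feas α) : DkSApprox ((3 * α + 1) ^ 2) := by
  obtain ⟨A, hA, hA2⟩ := h
  have hK : α ≤ (⌈α⌉₊ : ℕ) := Nat.le_ceil α
  have hK1 : 1 ≤ ⌈α⌉₊ := Nat.one_le_iff_ne_zero.2 (by
    intro h0
    rw [h0] at hK
    simp at hK
    linarith)
  refine ⟨dks A ⌈α⌉₊, polyTimeFun_of_poly (poly_dks (poly_of_polyTimeFun hA) _), fun J hJ => ?_⟩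
  exact dks_correct hF hK hK1 (by linarith) hA2 hJ

/-- **Theorem.** For every `α ≥ 1`, a polynomial-time single-criteria `α`-approximation for
GlobalECC, or for RobustECC, yields a polynomial-time `(3 α + 1)^2`-approximation for Densest
`k`-Subgraph. Consequently, if Densest `k`-Subgraph has no polynomial-time constant-factor
approximation, then neither GlobalECC nor RobustECC has one. -/
theorem result :
    (∀ α : ℝ, 1 ≤ α → (HasApprox GlobalFeasible α ∨ HasApprox RobustFeasible α) →
      DkSApprox ((3 * α + 1) ^ 2)) ∧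
    ((∀ c : ℝ, ¬ DkSApprox c) → ∀ α : ℝ, 1 ≤ α →
      ¬ HasApprox GlobalFeasible α ∧ ¬ HasApprox RobustFeasible α) := by
  have h1 : ∀ α : ℝ, 1 ≤ α → (HasApprox GlobalFeasible α ∨ HasApprox RobustFeasible α) →
      DkSApprox ((3 * α + 1) ^ 2) := by
    rintro α hα (h | h)
    · exact approx_of_nice nice_global hα h
    · exact approx_of_nice nice_robust hα h
  refine ⟨h1, fun h α hα => ⟨fun h2 => h _ (h1 α hα (Or.inl h2)),
    fun h2 => h _ (h1 α hα (Or.inr h2))⟩⟩

end Pool.Agent.Results.MP_dc7e63_lc.NoConstantFactor
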